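import Pool.Agent.Q331.WPL.Core

/-!
# WPL trees are not statically competitive

The initial tree is the zigzag path `1, n, 2, n - 1, ...`, and the keys are requested round by round
in the order of increasing depth.  Rotating the accessed key `x` over its parent `p` exchanges the
depths of `x` and `p` and changes no other depth.  When `x` is requested its parent has just been
requested, so both counters are equal after the update, the weighted path length would not
strictly decrease, and no rotation is ever performed: a round costs `n (n + 1) / 2`.  A complete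
binary search tree serves it at cost at most `n log₂ (n + 1)`.
-/

open Filter Topology Pool.Agent.Q331.WPL

namespace Pool.Agent.Results.MP_037a8f_lc.NotStaticCompetitive

theorem quant (h : ℕ) : ∃ T₀ : BT, IsBST (2 ^ h - 1) T₀ ∧
    ∀ m : ℕ, ∃ σ : List ℕ, (∀ x ∈ σ, 1 ≤ x ∧ x ≤ 2 ^ h - 1) ∧ σ.length = m * (2 ^ h - 1) ∧
      2 * costWPL T₀ σ = m * ((2 ^ h - 1) * 2 ^ h) ∧
      optStatic (2 ^ h - 1) σ ≤ m * (2 ^ h - 1) * h := by
  have hp : 1 ≤ 2 ^ h := Nat.one_le_two_pow
  refine ⟨zz true 1 (2 ^ h - 1), zz_isBST _, fun m => ⟨rounds (zl true 1 (2 ^ h - 1)) m, ?_, ?_,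
    ?_, ?_⟩⟩
  · intro x hx
    have := (mem_zl _ _ _ _).1 (mem_rounds hx)
    omega
  · rw [rounds_length, zl_length]
  · rw [costWPL_rounds]
    congr 2
    omega
  · have h0 : optStatic (2 ^ h - 1) (rounds (zl true 1 (2 ^ h - 1)) m) ≤
        costStatic (bal h 1) (rounds (zl true 1 (2 ^ h - 1)) m) :=
      Nat.sInf_le ⟨bal h 1, inorder_bal h 1, rfl⟩
    refine h0.trans ?_
    have := costStatic_le (S := bal h 1) (h := h) (σ := rounds (zl true 1 (2 ^ h - 1)) m) (by
      intro x hx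
      have := (mem_zl _ _ _ _).1 (mem_rounds hx)
      exact depth_bal h 1 x this.1 (by omega))
    rwa [rounds_length, zl_length] at this

/-- **The WPL tree algorithm is not `O(1)`-static-competitive.**  (1) For every `h`, with
`n = 2 ^ h - 1`, there is an initial tree `T₀` on the keys `1, ..., n` such that for every `m` some
access sequence `σ` of length `m n` costs the algorithm exactly `m n (n + 1) / 2`, while some fixed
tree serves it at cost at most `m n h`; so the static competitive ratio on `n` keys is at least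
`(n + 1) / (2 log₂ (n + 1))`.  (2) Hence for every constant `c` there are `n` and an
initial tree `T₀` such that for every `a` some access sequence `σ` satisfies
`cost_WPL σ > c * OPT_st σ + a`. -/
theorem result :
    (∀ h : ℕ, ∃ T₀ : BT, IsBST (2 ^ h - 1) T₀ ∧
      ∀ m : ℕ, ∃ σ : List ℕ, (∀ x ∈ σ, 1 ≤ x ∧ x ≤ 2 ^ h - 1) ∧ σ.length = m * (2 ^ h - 1) ∧
        2 * costWPL T₀ σ = m * ((2 ^ h - 1) * 2 ^ h) ∧
        optStatic (2 ^ h - 1) σ ≤ m * (2 ^ h - 1) * h) ∧
    (∀ c : ℝ, ∃ (n : ℕ) (T₀ : BT), IsBST n T₀ ∧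
      ∀ a : ℝ, ∃ σ : List ℕ, (∀ x ∈ σ, 1 ≤ x ∧ x ≤ n) ∧
        c * (optStatic n σ : ℝ) + a < (costWPL T₀ σ : ℝ)) := by
  refine ⟨quant, fun c => ?_⟩
  -- choose `h` with `2 c h + 2 ≤ 2 ^ h`
  have hlim : Tendsto (fun h : ℕ => (h : ℝ) ^ 1 / (2 : ℝ) ^ h) atTop (𝓝 0) :=
    tendsto_pow_const_div_const_pow_of_one_lt 1 (by norm_num)
  have hev := hlim.eventually (gt_mem_nhds (show (0 : ℝ) < 1 / (2 * |c| + 2) by positivity))
  obtain ⟨h, hh1, hh2⟩ := (hev.and (eventually_ge_atTop 1)).exists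
  have hc : (2 * |c| + 2) * h < (2 : ℝ) ^ h := by
    rw [pow_one, div_lt_div_iff₀ (by positivity) (by positivity)] at hh1
    linarith
  obtain ⟨T₀, hT, hσ⟩ := quant h
  refine ⟨2 ^ h - 1, T₀, hT, fun a => ?_⟩
  obtain ⟨m, hm⟩ := exists_nat_gt a
  obtain ⟨σ, h1, -, h3, h4⟩ := hσ (m + 1)
  refine ⟨σ, h1, ?_⟩
  set n : ℕ := 2 ^ h - 1 with hn
  have hn1 : 1 ≤ n := by
    have : 2 ^ 1 ≤ 2 ^ h := Nat.pow_le_pow_right (by norm_num) hh2
    omega
  have hn1' : (1 : ℝ) ≤ n := by exact_mod_cast hn1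
  have h3' : 2 * (costWPL T₀ σ : ℝ) = (m + 1) * (n * 2 ^ h) := by exact_mod_cast h3
  have h4' : (optStatic n σ : ℝ) ≤ (m + 1) * n * h := by exact_mod_cast h4
  have hh : (1 : ℝ) ≤ h := by exact_mod_cast hh2
  have hmn : (0 : ℝ) < (m + 1) * n := by positivity
  have key : c * (optStatic n σ : ℝ) ≤ |c| * ((m + 1) * n * h) := by
    calc c * (optStatic n σ : ℝ) ≤ |c| * (optStatic n σ : ℝ) := by
          gcongr; exact le_abs_self c
      _ ≤ |c| * ((m + 1) * n * h) := by gcongr
  have h5 : (m + 1) * n * ((2 * |c| + 2) * h) < (m + 1) * n * (2 : ℝ) ^ h := by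
    gcongr
  have h6 : ((m : ℝ) + 1) * 1 * 1 ≤ (m + 1) * n * h := by gcongr
  nlinarith

end Pool.Agent.Results.MP_037a8f_lc.NotStaticCompetitive
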